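import Mathlib
import Pool.Agent.H3.NoPrime

set_option autoImplicit false

open Pool.Agent.H3 in
theorem Pool.Agent.Results.MP_31a5b6_al.Exists.result :
    ∃ (T : Type) (_ : LinearOrder T) (L : Subgroup (T ≃o T)),
      (∃ a b c : T, a < b ∧ b < c) ∧
      (∀ f ∈ L, ∀ g ∈ L, ∃ h ∈ L, ∀ t, h t = max (f t) (g t)) ∧
      (∀ f ∈ L, ∀ g ∈ L, ∃ h ∈ L, ∀ t, h t = min (f t) (g t)) ∧
      (∀ r₁ r₂ s₁ s₂ : T, r₁ < r₂ → s₁ < s₂ → ∃ f ∈ L, f r₁ = s₁ ∧ f r₂ = s₂) ∧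
      (∀ f ∈ L, ∃ t₁ t₂ : T, ∀ s, s < t₁ ∨ t₂ < s → f s = s) ∧
      ∀ f ∈ L, (∀ t, t ≤ f t) → f ≠ 1 → ∃ f₁ ∈ L, ∃ f₂ ∈ L, f₁ ≠ 1 ∧ f₂ ≠ 1 ∧
        (∀ t, min (f₁ t) (f₂ t) = t) ∧ ∀ t, max (f₁ t) (f₂ t) = f t := by
  refine ⟨ℝ*, inferInstance, NoPrime.L ℝ*, ⟨0, 1, 2, one_pos, one_lt_two⟩,
    fun f a g b => ⟨_, NoPrime.L.sup a b, Amal.sup_v f g⟩,
    fun f a g b => ⟨_, NoPrime.L.inf a b, Amal.inf_v f g⟩,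
    fun _ _ _ _ a b => NoPrime.trans2 a b, fun f a => a.2, fun f a b c => ?_⟩
  obtain ⟨g, g1, h, h1, k1, k2, k3, k4⟩ := NoPrime.split (f := f) a b c
  exact ⟨g, g1, h, h1, k1, k2, fun t => (Amal.inf_v g h t).symm.trans (by rw [k3]; rfl),
    fun t => (Amal.sup_v g h t).symm.trans (by rw [k4]; rfl)⟩
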